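import Mathlib

/-!
# MP_d9fe16_an: the shear `F^M` is never an extreme point of `S⁰(𝕌², M)`
-/

namespace Pool.Agent.Results.MP_d9fe16_an.NotExtreme

open Filter Topology Metric

/-- `ℂ²` with the maximum norm; the unit bidisc is `ball (0 : C2) 1`. -/
abbrev C2 := Fin 2 → ℂ

/-- A normal Loewner chain on the bidisc. -/
structure IsNormalLoewnerChain (f : ℝ → C2 → C2) : Prop where
  holo : ∀ t, 0 ≤ t → DifferentiableOn ℂ (f t) (ball 0 1)
  univalent : ∀ t, 0 ≤ t → Set.InjOn (f t) (ball 0 1)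
  zero : ∀ t, 0 ≤ t → f t 0 = 0
  deriv : ∀ t, 0 ≤ t → fderiv ℂ (f t) 0 = (Real.exp t : ℂ) • ContinuousLinearMap.id ℂ C2
  mono : ∀ s t, 0 ≤ s → s ≤ t → f s '' ball 0 1 ⊆ f t '' ball 0 1
  /-- `{e^{-t} f(·,t)}` is a normal family: every sequence in it has a locally uniformly
  convergent subsequence. -/
  normal : ∀ t : ℕ → ℝ, (∀ k, 0 ≤ t k) → ∃ φ : ℕ → ℕ, StrictMono φ ∧ ∃ g : C2 → C2,
    TendstoLocallyUniformlyOn (fun k z => (Real.exp (-(t (φ k))) : ℂ) • f (t (φ k)) z) g atTop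
      (ball 0 1)

/-- The family `S⁰(𝕌²)` of maps with parametric representation (a map on the bidisc is
represented by any function on `ℂ²` extending it). -/
def S0 : Set (C2 → C2) :=
  {f | ∃ F : ℝ → C2 → C2, IsNormalLoewnerChain F ∧ Set.EqOn (F 0) f (ball 0 1)}

/-- The family `S⁰(𝕌², M)` of the maps in `S⁰(𝕌²)` bounded by `M`. -/
def S0M (M : ℝ) : Set (C2 → C2) := {f | f ∈ S0 ∧ ∀ z ∈ ball (0 : C2) 1, ‖f z‖ ≤ M}

/-- `f` is an extreme point of the family `𝓕` of maps on the bidisc. -/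
def IsExtreme (𝓕 : Set (C2 → C2)) (f : C2 → C2) : Prop :=
  f ∈ 𝓕 ∧ ∀ g ∈ 𝓕, ∀ h ∈ 𝓕, ∀ l : ℝ, 0 < l → l < 1 →
    (∀ z ∈ ball (0 : C2) 1, f z = (l : ℂ) • g z + ((1 - l : ℝ) : ℂ) • h z) →
    Set.EqOn g h (ball 0 1)

/-- The shear `(z₁ + (1 - 1/M) z₂², z₂)`. -/
noncomputable def FM (M : ℝ) (z : C2) : C2 := ![z 0 + ((1 - 1 / M : ℝ) : ℂ) * z 1 ^ 2, z 1]

/-- general shear -/
noncomputable def Fc (c : ℝ) (z : C2) : C2 := ![z 0 + (c : ℂ) * z 1 ^ 2, z 1]

lemma Fc_diff (c : ℝ) : Differentiable ℂ (Fc c) := by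
  rw [differentiable_pi]
  intro i
  fin_cases i
  · simp only [Fc]
    simp
    fun_prop
  · simp only [Fc]
    simp
    fun_prop

lemma Fc_inj (c : ℝ) : Function.Injective (Fc c) := by
  intro z w h
  have h0 := congrFun h 0
  have h1 := congrFun h 1
  simp [Fc] at h0 h1
  rw [h1] at h0
  funext i
  fin_cases i
  · exact add_right_cancel h0
  · exact h1

lemma Fc_fderiv (c : ℝ) : HasFDerivAt (Fc c) (ContinuousLinearMap.id ℂ C2) 0 := by
  rw [hasFDerivAt_pi']
  have hp : ∀ j : Fin 2, HasFDerivAt (fun z : C2 => z j)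
      (ContinuousLinearMap.proj (R := ℂ) (φ := fun _ : Fin 2 => ℂ) j) 0 := fun j =>
    hasFDerivAt_apply j 0
  intro i
  fin_cases i
  · have h := (hp 0).add (((hp 1).pow 2).const_mul (c : ℂ))
    refine h.congr_fderiv ?_
    ext v
    simp
  · refine (hp 1).congr_fderiv ?_
    ext v
    simp

lemma Fc_chain {c : ℝ} (hc : |c| ≤ 1) :
    IsNormalLoewnerChain (fun t z => (Real.exp t : ℂ) • Fc c z) where
  holo t _ := by
    have h := Fc_diff c
    have : Differentiable ℂ (fun z => (Real.exp t : ℂ) • Fc c z) := by fun_prop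
    exact this.differentiableOn
  univalent t _ := by
    intro z _ w _ h
    have he : (Real.exp t : ℂ) ≠ 0 := by exact_mod_cast (Real.exp_pos t).ne'
    exact Fc_inj c (smul_right_injective C2 he h)
  zero t _ := by
    funext i
    fin_cases i <;> simp [Fc]
  deriv t _ := ((Fc_fderiv c).const_smul (Real.exp t : ℂ)).fderiv
  mono s t hs hst := by
    rintro _ ⟨z, hz, rfl⟩
    set l : ℝ := Real.exp (s - t) with hl
    have hl0 : 0 < l := Real.exp_pos _
    have hl1 : l ≤ 1 := by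
      rw [hl, Real.exp_le_one_iff]
      linarith
    have hzn : ‖z‖ < 1 := by rwa [mem_ball_zero_iff] at hz
    have h0 : ‖z 0‖ < 1 := (norm_le_pi_norm z 0).trans_lt hzn
    have h1 : ‖z 1‖ < 1 := (norm_le_pi_norm z 1).trans_lt hzn
    refine ⟨![l * z 0 + c * l * (1 - l) * z 1 ^ 2, l * z 1], ?_, ?_⟩
    · rw [mem_ball_zero_iff, pi_norm_lt_iff one_pos]
      intro i
      fin_cases i
      · show ‖(l : ℂ) * z 0 + c * l * (1 - l) * z 1 ^ 2‖ < 1
        have e1 : ‖(l : ℂ) * z 0‖ = l * ‖z 0‖ := by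
          rw [norm_mul, Complex.norm_real, Real.norm_of_nonneg hl0.le]
        have e2 : ‖(c : ℂ) * l * (1 - l) * z 1 ^ 2‖ = |c| * l * (1 - l) * ‖z 1‖ ^ 2 := by
          have : (c : ℂ) * l * (1 - l) * z 1 ^ 2 = ((c * l * (1 - l) : ℝ) : ℂ) * z 1 ^ 2 := by
            push_cast
            ring
          rw [this, norm_mul, Complex.norm_real, norm_pow, Real.norm_eq_abs, abs_mul, abs_mul,
            abs_of_pos hl0, abs_of_nonneg (by linarith : 0 ≤ 1 - l)]
        refine (norm_add_le _ _).trans_lt ?_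
        rw [e1, e2]
        have e3 : ‖z 1‖ ^ 2 ≤ 1 := pow_le_one₀ (norm_nonneg _) h1.le
        have e4 : |c| * l * (1 - l) * ‖z 1‖ ^ 2 ≤ 1 * l * (1 - l) * 1 := by
          have h5 : 0 ≤ l * (1 - l) := mul_nonneg hl0.le (by linarith)
          have h6 : |c| * ‖z 1‖ ^ 2 ≤ 1 := by
            have := mul_le_mul hc e3 (by positivity) zero_le_one
            linarith
          nlinarith
        nlinarith
      · show ‖(l : ℂ) * z 1‖ < 1
        rw [norm_mul, Complex.norm_real, Real.norm_of_nonneg hl0.le]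
        nlinarith [norm_nonneg (z 1)]
    · have hel : (Real.exp t : ℂ) * l = Real.exp s := by
        rw [hl, ← Complex.ofReal_mul, ← Real.exp_add]
        congr 2
        ring
      funext i
      fin_cases i
      · show (Real.exp t : ℂ) * ((l : ℂ) * z 0 + c * l * (1 - l) * z 1 ^ 2 +
          c * ((l : ℂ) * z 1) ^ 2) = (Real.exp s : ℂ) * (z 0 + c * z 1 ^ 2)
        rw [← hel]
        ring
      · show (Real.exp t : ℂ) * ((l : ℂ) * z 1) = (Real.exp s : ℂ) * z 1
        rw [← hel]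
        ring
  normal t _ := by
    refine ⟨id, strictMono_id, Fc c, ?_⟩
    have : (fun (k : ℕ) (z : C2) => (Real.exp (-(t (id k))) : ℂ) •
        ((Real.exp (t (id k)) : ℂ) • Fc c z)) = fun _ z => Fc c z := by
      funext k z
      rw [smul_smul, ← Complex.ofReal_mul, ← Real.exp_add]
      simp
    rw [this]
    exact fun u hu x _ => ⟨Set.univ, Filter.univ_mem,
      Eventually.of_forall fun n y _ => refl_mem_uniformity hu⟩

lemma Fc_mem {c M : ℝ} (hc : |c| ≤ 1) (hM : 1 + |c| ≤ M) : Fc c ∈ S0M M := by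
  refine ⟨⟨_, Fc_chain hc, ?_⟩, ?_⟩
  · intro z _
    simp
  · intro z hz
    have hzn : ‖z‖ < 1 := by rwa [mem_ball_zero_iff] at hz
    have h0 : ‖z 0‖ < 1 := (norm_le_pi_norm z 0).trans_lt hzn
    have h1 : ‖z 1‖ < 1 := (norm_le_pi_norm z 1).trans_lt hzn
    rw [pi_norm_le_iff_of_nonneg (by linarith [abs_nonneg c])]
    intro i
    fin_cases i
    · show ‖z 0 + (c : ℂ) * z 1 ^ 2‖ ≤ M
      refine (norm_add_le _ _).trans ?_
      rw [norm_mul, Complex.norm_real, norm_pow, Real.norm_eq_abs]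
      have e3 : ‖z 1‖ ^ 2 ≤ 1 := pow_le_one₀ (norm_nonneg _) h1.le
      nlinarith [abs_nonneg c]
    · show ‖z 1‖ ≤ M
      linarith [abs_nonneg c]

/-- **Negative answer to Q1 of MP_d9fe16_an, for every `M`.** For every `M > 1` the map `F^M`
belongs to `S⁰(𝕌², M)` but is not an extreme point of `S⁰(𝕌², M)`. -/
theorem result (M : ℝ) (hM : 1 < M) : FM M ∈ S0M M ∧ ¬ IsExtreme (S0M M) (FM M) := by
  have hM0 : 0 < M := by linarith
  have hinv : 0 < 1 / M := by positivity
  have hinv1 : 1 / M < 1 := by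
    rw [div_lt_one hM0]
    exact hM
  have hMM : M * (1 / M) = 1 := by field_simp
  set c : ℝ := 1 - 1 / M with hc
  have hc0 : 0 < c := by linarith
  have hgap : 1 + c < M := by
    have : 0 < (M - 1) ^ 2 := by
      have : 0 < M - 1 := by linarith
      positivity
    have h2 : 0 < M + 1 / M - 2 := by
      have h3 : (M - 1) ^ 2 * (1 / M) = M + 1 / M - 2 := by
        field_simp
        ring
      rw [← h3]
      positivity
    linarith
  have hFM : FM M = Fc c := rfl
  set ε : ℝ := min (1 / M) (min (M - (1 + c)) c) with hε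
  have hε0 : 0 < ε := lt_min hinv (lt_min (by linarith) hc0)
  have hε1 : ε ≤ 1 / M := min_le_left _ _
  have hε2 : ε ≤ M - (1 + c) := (min_le_right _ _).trans (min_le_left _ _)
  have hε3 : ε ≤ c := (min_le_right _ _).trans (min_le_right _ _)
  refine ⟨?_, ?_⟩
  · rw [hFM]
    exact Fc_mem (by rw [abs_of_pos hc0]; linarith) (by rw [abs_of_pos hc0]; linarith)
  · rintro ⟨-, h⟩
    have h1 := h (Fc (c + ε)) (Fc_mem (by rw [abs_of_pos (by linarith)]; linarith)
      (by rw [abs_of_pos (by linarith)]; linarith)) (Fc (c - ε))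
      (Fc_mem (by rw [abs_of_nonneg (by linarith)]; linarith)
      (by rw [abs_of_nonneg (by linarith)]; linarith)) (1 / 2) (by norm_num) (by norm_num) ?_
    · have hz : (![0, 1 / 2] : C2) ∈ ball (0 : C2) 1 := by
        rw [mem_ball_zero_iff, pi_norm_lt_iff one_pos]
        intro i
        fin_cases i
        · simp
        · show ‖(1 / 2 : ℂ)‖ < 1
          norm_num
      have h2 := congrFun (h1 hz) 0
      simp [Fc] at h2
      have h3 : (ε : ℂ) = 0 := by linear_combination (1 / 2 : ℂ) * h2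
      have h4 : ε = 0 := by exact_mod_cast h3
      linarith
    · intro z _
      rw [hFM]
      funext i
      fin_cases i
      · show z 0 + (c : ℂ) * z 1 ^ 2 = ((1 / 2 : ℝ) : ℂ) * (z 0 + ((c + ε : ℝ) : ℂ) * z 1 ^ 2) +
          ((1 - 1 / 2 : ℝ) : ℂ) * (z 0 + ((c - ε : ℝ) : ℂ) * z 1 ^ 2)
        push_cast
        ring
      · show z 1 = ((1 / 2 : ℝ) : ℂ) * z 1 + ((1 - 1 / 2 : ℝ) : ℂ) * z 1
        push_cast
        ring

end Pool.Agent.Results.MP_d9fe16_an.NotExtreme
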